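import Pool.Agent.helper36.PAP.Main3

/-!
Bounded depth circuits do not find primes in arithmetic progressions: the density of the inputs on
which they succeed tends to zero, even with random bits and a bounded number of advice bits.
-/

namespace Pool.Agent.Results.MP_e6b197_lc.BoundedDepth

open PAP

theorem result (d g : ℕ) (ε : ℝ) (hε : 0 < ε) :
    ∃ K : ℕ, ∀ k t s m r : ℕ, K ≤ k → K ≤ t → s ≤ 2 ^ t → K * m * t ^ (2 * d + 2) ≤ k ^ 2 →
      ∀ (C : Circuit (((Fin k ⊕ Fin k) ⊕ Fin r) ⊕ Fin g) d s m)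
        (adv : (Fin k ⊕ Fin k → Bool) → (Fin r → Bool) → (Fin g → Bool)),
        (Nat.card {p : (Fin k ⊕ Fin k → Bool) × (Fin r → Bool) //
            aOf p.1 < nOf p.1 ∧ (aOf p.1).Coprime (nOf p.1) ∧
            (C.answer (Sum.elim (Sum.elim p.1 p.2) (adv p.1 p.2))).Prime ∧
            C.answer (Sum.elim (Sum.elim p.1 p.2) (adv p.1 p.2)) ≡ aOf p.1 [MOD nOf p.1]} : ℝ) ≤
          ε * (Nat.card {p : (Fin k ⊕ Fin k → Bool) × (Fin r → Bool) //
            aOf p.1 < nOf p.1 ∧ (aOf p.1).Coprime (nOf p.1)} : ℝ) := by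
  classical
  obtain ⟨K, hK⟩ := main3 d g ε hε
  refine ⟨K, fun k t s m r hk ht hs hm C adv => ?_⟩
  have h1 := hK k t s m r hk ht hs hm C adv
  have e2 : (Nat.card {p : (Fin k ⊕ Fin k → Bool) × (Fin r → Bool) //
      aOf p.1 < nOf p.1 ∧ (aOf p.1).Coprime (nOf p.1)} : ℝ) =
      2 ^ r * ((Finset.univ.filter (fun x : Fin k ⊕ Fin k → Bool =>
          aOf x < nOf x ∧ Nat.Coprime (aOf x) (nOf x))).card : ℝ) := by
    rw [Nat.card_eq_fintype_card, Fintype.card_subtype]
    have h3 : (Finset.univ.filter (fun p : (Fin k ⊕ Fin k → Bool) × (Fin r → Bool) =>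
        aOf p.1 < nOf p.1 ∧ (aOf p.1).Coprime (nOf p.1))) =
        (Finset.univ.filter (fun x : Fin k ⊕ Fin k → Bool =>
          aOf x < nOf x ∧ Nat.Coprime (aOf x) (nOf x))) ×ˢ (Finset.univ : Finset (Fin r → Bool)) := by
      ext p
      simp
    rw [h3, Finset.card_product, Finset.card_univ, Fintype.card_fun, Fintype.card_bool,
      Fintype.card_fin]
    push_cast
    ring
  rw [e2]
  refine le_trans ?_ h1
  rw [Nat.card_eq_fintype_card, Fintype.card_subtype]
  have h4 : (Finset.univ.filter (fun p : (Fin k ⊕ Fin k → Bool) × (Fin r → Bool) =>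
      aOf p.1 < nOf p.1 ∧ (aOf p.1).Coprime (nOf p.1) ∧
        (C.answer (Sum.elim (Sum.elim p.1 p.2) (adv p.1 p.2))).Prime ∧
        C.answer (Sum.elim (Sum.elim p.1 p.2) (adv p.1 p.2)) ≡ aOf p.1 [MOD nOf p.1])) ⊆
      (Finset.univ.filter (fun p : (Fin k ⊕ Fin k → Bool) × (Fin r → Bool) =>
        Right (fun x => num (C.bit (Sum.elim (Sum.elim x p.2) (adv x p.2)))) p.1)) := by
    intro p hp
    rw [Finset.mem_filter] at hp ⊢
    exact ⟨hp.1, hp.2.1, hp.2.2.2.1, hp.2.2.2.2⟩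
  exact_mod_cast Finset.card_le_card h4

end Pool.Agent.Results.MP_e6b197_lc.BoundedDepth
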