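import Pool.Agent.helper36.PAM.Main2

/-!
Bounded depth circuits with MOD gates for a prime modulus do not find primes in arithmetic
progressions: their success probability tends to zero, for every modulus of the progression.
-/

namespace Pool.Agent.Results.MP_e6b197_lc.ModGates

open PAP PAM

theorem result (r d : ℕ) (hr : r.Prime) (ε : ℝ) (hε : 0 < ε) :
    ∃ K : ℕ, ∀ k t s m : ℕ, K ≤ t → k ≤ 2 ^ t → s ≤ 2 ^ t →
      K * (m + 1) ^ 2 * t ^ (2 * d + 1) ≤ k →
      ∀ (W : Type) [Fintype W] (C : MCircuit (Fin k ⊕ W) r d s m) (n j u : (W → Bool) → ℕ),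
        (Nat.card {p : (Fin k → Bool) × (W → Bool) //
            (u p.2 + 2 ^ j p.2 * num p.1 +
              n p.2 * num (C.bit (Sum.elim p.1 p.2))).Prime} : ℝ) ≤
          ε * (2 ^ k * 2 ^ Fintype.card W) := by
  classical
  obtain ⟨K, hK⟩ := main_small r d hr ε hε
  refine ⟨K, fun k t s m hKt hkt hs hk W _ C n j u => ?_⟩
  have h := hK k t s m hKt hkt hs hk W C n j u
  rw [Nat.card_eq_fintype_card, Fintype.card_subtype]
  refine le_trans (le_of_eq ?_) h
  congr 1

end Pool.Agent.Results.MP_e6b197_lc.ModGates
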